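import Pool.Agent.NH16.Equiv2

/-!
# The prime tuples conjecture on average over short shifts: one length implies all lengths

The mean errors of the Hardy-Littlewood asymptotics over the `r`-tuples in `[1, L] ^ r` and over the
`s`-tuples in `[1, H] ^ s`, `N ^ ε ≤ L ≤ H ≤ N ^ (1 - ε)`, are compared: the second one is at most a
constant times a power of the first one.
-/

set_option autoImplicit false

namespace Pool.Agent.Results.MP_e87c7d_nt.AllLengthsFromOne

open Finset Filter

/-- `π(N; a 1, ..., a r)`, the number of `1 ≤ n ≤ N` such that all `n + a i` are prime. -/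
def primeTuples {r : ℕ} (a : Fin r → ℕ) (N : ℕ) : ℕ := ((Icc 1 N).filter (fun n => ∀ i, (n + a i).Prime)).card

/-- The number of residue classes modulo `p` occupied by the `a i`. -/
def nu {r : ℕ} (a : Fin r → ℕ) (p : ℕ) : ℕ := (univ.image (fun i => a i % p)).card

/-- The singular series `𝔖(a 1, ..., a r)`, a product over all primes. -/
noncomputable def singularSeries {r : ℕ} (a : Fin r → ℕ) : ℝ :=
  ∏' p : Nat.Primes, (1 - (nu a p : ℝ) / p) / (1 - 1 / (p : ℝ)) ^ r

/-- The mean error of the Hardy-Littlewood asymptotics for the `r`-tuples of distinct shifts in `[1, H]`. -/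
noncomputable def meanError (r N H : ℕ) : ℝ :=
  (∑ a ∈ (Fintype.piFinset (fun _ : Fin r => Icc 1 H)).filter (fun a => Function.Injective a),
    |Real.log N ^ r / N * primeTuples a N - singularSeries a|) / (H : ℝ) ^ r

lemma singularSeries_eq {r : ℕ} (a : Fin r → ℕ) :
    Pool.Agent.H386R2.HL.singularSeries a = singularSeries a := by
  unfold Pool.Agent.H386R2.HL.singularSeries singularSeries
  congr 1
  ext p
  unfold Pool.Agent.H386R2.HL.localFactor
  rw [inv_pow, inv_mul_eq_div]
  rfl

lemma meanError_eq (r N H : ℕ) : Pool.Agent.NH16.EE r N H = meanError r N H := by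
  unfold Pool.Agent.NH16.EE meanError Pool.Agent.NH16.Fr primeTuples
  simp only [singularSeries_eq]

/-- For all lengths `r, s ≥ 2` and all `ε > 0` there is `C` such that for every `δ > 0`, all large `N` and all
`L, H` with `N ^ ε ≤ L ≤ H ≤ N ^ (1 - ε)` the mean error over the `s`-tuples of shifts up to `H` is at most
`C (E + δ) ^ (1 / (32 s))`, where `E` is the mean error over the `r`-tuples of shifts up to `L`. -/
theorem result (r s : ℕ) (hr : 2 ≤ r) (hs : 2 ≤ s) (ε : ℝ) (hε : 0 < ε) : ∃ C : ℝ, ∀ δ : ℝ, 0 < δ →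
    ∀ᶠ N : ℕ in atTop, ∀ L H : ℕ, (N : ℝ) ^ ε ≤ L → L ≤ H → (H : ℝ) ≤ (N : ℝ) ^ (1 - ε) →
      meanError s N H ≤ C * (meanError r N L + δ) ^ (1 / (32 * (s : ℝ))) := by
  obtain ⟨k, rfl⟩ := Nat.exists_eq_add_of_le' hr
  obtain ⟨m, rfl⟩ := Nat.exists_eq_add_of_le' hs
  obtain ⟨C, -, hC⟩ := Pool.Agent.NH16.equiv' k m (min ε (1 / 2)) (lt_min hε (by norm_num)) (min_le_right _ _)
  refine ⟨C, ?_⟩
  intro δ hδ
  filter_upwards [hC δ hδ, eventually_ge_atTop 1] with N hN hN1 L H hL hLH hH
  have hN1' : (1 : ℝ) ≤ N := by exact_mod_cast hN1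
  have h := hN L H ((Real.rpow_le_rpow_of_exponent_le hN1' (min_le_left _ _)).trans hL) hLH
    (hH.trans (Real.rpow_le_rpow_of_exponent_le hN1' (by linarith [min_le_left ε (1 / 2)])))
  rw [meanError_eq, meanError_eq] at h
  push_cast
  exact h

end Pool.Agent.Results.MP_e87c7d_nt.AllLengthsFromOne
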