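import Mathlib
import Pool.Agent.NH16.CC.Geo

set_option autoImplicit false

/-!
# Almost all sets of positions in second kind Cunningham chains have large simultaneously prime parts

The numbers `2 ^ j n + 1`, `j = 0, 1, ...`, form a sequence in which every term is twice the preceding one minus
`1`: Cunningham chains of the second kind are runs of primes in such sequences, and the question is whether all
the positions `0, ..., k - 1` can be occupied by primes simultaneously.

Let `V` be a large finite set of positions.  Almost all `r`-element sets `F` of positions from `V` have the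
following property: every `T ⊆ F` contains a set `I` of at least `5 |T| / 18` positions such that for many `n` all
the numbers `2 ^ j n + 1`, `j ∈ I`, are prime; also for several scales `N_1, ..., N_R` and several bases
simultaneously, with `(5 / 18) ^ R` in place of `5 / 18`.

The theorem on classes of linear forms with the constant `18 / 5`, uniform in constant terms as large as the
variable (`Pool.Agent.Y827.RO.lamRD`), and its combination for several families (`Pool.Agent.R493.CP.nestG`) are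
from the starting files.
-/

namespace Pool.Agent.Results.MP_9f2731_nt.AlmostAllSetsOfPositions

open Finset

/-- the number of the `n ∈ [N, D N]` such that all the numbers `b ^ j n + 1`, `j ∈ I`, are prime -/
def count (b D : ℕ) (I : Finset ℕ) (N : ℕ) : ℕ :=
  ((Icc N (D * N)).filter (fun n => ∀ j ∈ I, (b ^ j * n + 1).Prime)).card

theorem cnt_le {b D N : ℕ} (F : Finset ℕ) (hb : 2 ≤ b) (hN : 1 ≤ N) :
    Pool.Agent.R493.SC.cntG b (1) D F N ≤ count b D F N := by
  unfold Pool.Agent.R493.SC.cntG count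
  apply card_le_card
  intro n hn
  obtain ⟨h1, h2⟩ := mem_filter.1 hn
  refine mem_filter.2 ⟨h1, fun j hj => ?_⟩
  have h3 := h2 j hj
  have h4 : 1 ≤ b ^ j * n := Nat.mul_pos (by positivity) (by have := (mem_Icc.1 h1).1; omega)
  have e : ((b : ℤ) ^ j * (n : ℤ) + (1)).toNat = b ^ j * n + 1 := by
    have h5 : (b : ℤ) ^ j * (n : ℤ) = ((b ^ j * n : ℕ) : ℤ) := by push_cast; ring
    rw [h5]
    omega
  rwa [e] at h3

/-- Every `T ⊆ F` contains a set `I` with `|I| ≥ (5 / 18) ^ R |T|` such that for every `ρ` there are at least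
`N_ρ / (log N_ρ) ^ B` numbers `n ∈ [N_ρ, D N_ρ]` for which all the `b_ρ ^ j n + 1`, `j ∈ I`, are prime. -/
def Rich {R : ℕ} (b : Fin R → ℕ) (D B : ℕ) (N : Fin R → ℕ) (F : Finset ℕ) : Prop :=
  ∀ T ⊆ F, ∃ I ⊆ T, (5 / 18 : ℝ) ^ R * (T.card : ℝ) ≤ (I.card : ℝ) ∧
    ∀ ρ, (N ρ : ℝ) / (Real.log (N ρ)) ^ B ≤ (count (b ρ) D I (N ρ) : ℝ)

open Classical in
theorem result (R r : ℕ) (ε : ℝ) (hε : 0 < ε) : ∃ n₀ B : ℕ, ∀ V : Finset ℕ, n₀ ≤ V.card →
    ∀ b : Fin R → ℕ, (∀ ρ, 2 ≤ b ρ) → ∃ D N₀ : ℕ, ∀ N : Fin R → ℕ, (∀ ρ, N₀ ≤ N ρ) →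
      (((V.powersetCard r).filter (fun F => ¬ Rich b D B N F)).card : ℝ) ≤ ε * (V.card.choose r : ℝ) := by
  obtain ⟨n₀, B, h⟩ := Pool.Agent.NH16.CC.geoAlmost R r ε hε
  refine ⟨n₀, B, fun V hV b hb => ?_⟩
  obtain ⟨D, N₀, h1⟩ := h V hV b (fun _ => 1) (fun ρ => ⟨hb ρ, isCoprime_one_right⟩)
  refine ⟨D, N₀ + 1, fun N hN => ?_⟩
  obtain ⟨Ex, hEx1, hEx2⟩ := h1 N (fun ρ => (Nat.le_succ _).trans (hN ρ))
  refine le_trans ?_ hEx2
  rw [Nat.cast_le]
  apply card_le_card
  intro F hF
  rw [mem_filter, mem_powersetCard] at hF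
  by_contra hFE
  refine hF.2 ?_
  intro T hT
  obtain ⟨I, hI, hc, hI2⟩ := hEx1 F hF.1.1 hF.1.2 hFE T hT
  refine ⟨I, hI, ?_, fun ρ => (hI2 ρ).trans ?_⟩
  · have h5 : ((5 : ℝ) ^ R * T.card : ℝ) ≤ 18 ^ R * I.card := by exact_mod_cast hc
    rw [div_pow, div_mul_eq_mul_div, div_le_iff₀ (by positivity)]
    linarith
  · rw [Nat.cast_le]
    exact cnt_le I (hb ρ) ((Nat.le_add_left _ _).trans (hN ρ))

end Pool.Agent.Results.MP_9f2731_nt.AlmostAllSetsOfPositions
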