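import Pool.Agent.NH16.Tuple

/-!
# Prime tuples with short shifts, with arbitrary bounded weights

As a function of the vector of shifts `h ∈ [1, H] ^ (k + 1)`, where `N ^ ε ≤ H ≤ N`, the normalised number of
prime tuples `(n, n + h 1, ..., n + h (k + 1))`, `n ≤ N`, also with arbitrary bounded complex weights (for
instance with every entry in a given set of primes), is for almost all `h` a trigonometric polynomial with
boundedly many frequencies, up to `η`.
-/

set_option autoImplicit false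

namespace Pool.Agent.Results.MP_e87c7d_nt.AlmostPeriodicTupleCounts

open Finset Filter

/-- The sum of `f₀ n * ∏ i, f i (n + h i)` over the `n ≤ N` such that `n` and all `n + h i` are prime. -/
noncomputable def primeTupleSum {k : ℕ} (N : ℕ) (f₀ : ℕ → ℂ) (f : Fin k → ℕ → ℂ) (h : Fin k → ℕ) : ℂ :=
  ∑ n ∈ (Icc 1 N).filter (fun n => n.Prime ∧ ∀ i, (n + h i).Prime), f₀ n * ∏ i, f i (n + h i)

/-- For all `k` and all `ε, η > 0` there is `K` such that for all large `N`, all `H` with `N ^ ε ≤ H ≤ N` and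
all complex weights `f₀, f 1, ..., f (k + 1)` bounded by `1` there are `K` complex numbers `c j` with
`‖c j‖ ≤ K` and `K` real vectors `α j` such that
`(log N) ^ (k + 2) / N * ∑ f₀ n ∏ f i (n + h i) = ∑ j, c j e(α j · h)` up to `η`, the sum on the left over the
`n ≤ N` with `n` and all `n + h i` prime, for all but at most `η H ^ (k + 1)` of the `h ∈ [1, H] ^ (k + 1)`. -/
theorem result (k : ℕ) (ε η : ℝ) (hε : 0 < ε) (hη : 0 < η) : ∃ K : ℕ, ∀ᶠ N : ℕ in atTop,
    ∀ H : ℕ, (N : ℝ) ^ ε ≤ H → H ≤ N → ∀ (f₀ : ℕ → ℂ) (f : Fin (k + 1) → ℕ → ℂ), (∀ n, ‖f₀ n‖ ≤ 1) →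
      (∀ i n, ‖f i n‖ ≤ 1) → ∃ (c : Fin K → ℂ) (α : Fin K → Fin (k + 1) → ℝ), (∀ j, ‖c j‖ ≤ K) ∧
      (((Fintype.piFinset (fun _ : Fin (k + 1) => Icc 1 H)).filter (fun h =>
        η < ‖(Real.log N : ℂ) ^ (k + 2) / N * primeTupleSum N f₀ f h -
          ∑ j, c j * Complex.exp (2 * Real.pi * Complex.I * ((∑ i, α j i * h i : ℝ) : ℂ))‖)).card : ℝ) ≤
        η * (H : ℝ) ^ (k + 1) :=
  Pool.Agent.NH16.tuple_struct k ε η hε hη

end Pool.Agent.Results.MP_e87c7d_nt.AlmostPeriodicTupleCounts
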