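import Pool.Agent.NH16.Short2

/-!
# The prime tuples conjecture on average over short shifts and primes in almost all short intervals

For every length `s ≥ 2` the Hardy-Littlewood asymptotics for the `s`-tuples of shifts up to `H(N)`,
`N ^ ε ≤ H(N) ≤ N ^ (1 - ε)`, hold on average if and only if, for almost all `n ≤ N`, the primes in
the intervals of length `H(N)` (and its multiples by constants `γ ≤ 1`) after `n` are equidistributed in the
reduced residue classes to every fixed modulus and have small exponential sums on the minor arcs.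
-/

set_option autoImplicit false

namespace Pool.Agent.Results.MP_e87c7d_nt.AverageIffShortIntervals

open Finset Filter

/-- `π(N; a 1, ..., a r)`, the number of `1 ≤ n ≤ N` such that all `n + a i` are prime. -/
def primeTuples {r : ℕ} (a : Fin r → ℕ) (N : ℕ) : ℕ := ((Icc 1 N).filter (fun n => ∀ i, (n + a i).Prime)).card

/-- The number of residue classes modulo `p` occupied by the `a i`. -/
def nu {r : ℕ} (a : Fin r → ℕ) (p : ℕ) : ℕ := (univ.image (fun i => a i % p)).card

/-- The singular series `𝔖(a 1, ..., a r)`, a product over all primes. -/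
noncomputable def singularSeries {r : ℕ} (a : Fin r → ℕ) : ℝ :=
  ∏' p : Nat.Primes, (1 - (nu a p : ℝ) / p) / (1 - 1 / (p : ℝ)) ^ r

/-- The mean error of the Hardy-Littlewood asymptotics for the `r`-tuples of distinct shifts in `[1, H]`. -/
noncomputable def meanError (r N H : ℕ) : ℝ :=
  (∑ a ∈ (Fintype.piFinset (fun _ : Fin r => Icc 1 H)).filter (fun a => Function.Injective a),
    |Real.log N ^ r / N * primeTuples a N - singularSeries a|) / (H : ℝ) ^ r

/-- The number of primes `n < p ≤ n + L` with `p ≡ a` modulo `q`. -/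
def primesIn (n L q a : ℕ) : ℕ := ((Ioc n (n + L)).filter (fun p => p.Prime ∧ p ≡ a [MOD q])).card

/-- The sum of `e(α p)` over the primes `n < p ≤ n + L`. -/
noncomputable def expSum (n L : ℕ) (α : ℝ) : ℂ :=
  ∑ p ∈ (Ioc n (n + L)).filter Nat.Prime, Complex.exp (2 * Real.pi * Complex.I * ((α * p : ℝ) : ℂ))

/-- For every modulus `q`, every `a` prime to `q` and every `0 < γ ≤ 1`, for almost all `n ≤ N` the number of
primes congruent to `a` modulo `q` in the interval of length `γ H(N)` after `n` is `γ H(N) / (φ(q) log N)` up to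
`o(H(N) / log N)`. -/
def Equidistributed (H : ℕ → ℕ) : Prop := ∀ q a : ℕ, 0 < q → a.Coprime q → ∀ γ : ℝ, 0 < γ → γ ≤ 1 →
  Tendsto (fun N : ℕ => (∑ n ∈ Icc 1 N,
    |Real.log N / H N * primesIn n ⌊γ * H N⌋₊ q a - γ / Nat.totient q|) / N) atTop (nhds 0)

/-- For every `η > 0` there is `K` such that for all large `N` and every real `α` with `|α - a / q| > K / H(N)`
for all fractions `a / q` with `q ≤ K` the exponential sum over the primes in the interval of length `H(N)` after
`n` is on average over `n ≤ N` at most `η H(N) / log N`. -/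
def SmallOnMinorArcs (H : ℕ → ℕ) : Prop := ∀ η : ℝ, 0 < η → ∃ K : ℕ, ∀ᶠ N : ℕ in atTop, ∀ α : ℝ,
  (∀ q : ℕ, 0 < q → q ≤ K → ∀ a : ℤ, (K : ℝ) / H N < |α - a / q|) →
    (∑ n ∈ Icc 1 N, Real.log N / H N * ‖expSum n (H N) α‖) / N ≤ η

lemma singularSeries_eq {r : ℕ} (a : Fin r → ℕ) :
    Pool.Agent.H386R2.HL.singularSeries a = singularSeries a := by
  unfold Pool.Agent.H386R2.HL.singularSeries singularSeries
  congr 1
  ext p
  unfold Pool.Agent.H386R2.HL.localFactor
  rw [inv_pow, inv_mul_eq_div]
  rfl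

lemma meanError_eq (r N H : ℕ) : Pool.Agent.NH16.EE r N H = meanError r N H := by
  unfold Pool.Agent.NH16.EE meanError Pool.Agent.NH16.Fr primeTuples
  simp only [singularSeries_eq]

lemma expSum_eq (n L : ℕ) (α : ℝ) : Pool.Agent.NH16.PS n L α = expSum n L α := by
  unfold Pool.Agent.NH16.PS expSum
  apply sum_congr rfl
  intro p _
  rw [Pool.Agent.Helper602.MK.N_J5b.ee_eq]
  congr 1
  push_cast
  ring

lemma major_iff (H : ℕ → ℕ) : Pool.Agent.NH16.Major H ↔ Equidistributed H := Iff.rfl

lemma minor_iff (H : ℕ → ℕ) : Pool.Agent.NH16.Minor H ↔ SmallOnMinorArcs H := by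
  unfold Pool.Agent.NH16.Minor SmallOnMinorArcs Pool.Agent.NH16.minM
  simp only [expSum_eq]

/-- For all `s ≥ 2`, `ε > 0` and every function `H` with `N ^ ε ≤ H(N) ≤ N ^ (1 - ε)` for large `N`: the mean error
of the Hardy-Littlewood asymptotics for the `s`-tuples of distinct shifts up to `H(N)` tends to `0` if and only if
the primes are equidistributed in the residue classes in almost all intervals of length `γ H(N)`, `0 < γ ≤ 1`, and
have small exponential sums on the minor arcs in almost all intervals of length `H(N)`. -/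
theorem result (s : ℕ) (hs : 2 ≤ s) (ε : ℝ) (hε : 0 < ε) (H : ℕ → ℕ)
    (hH : ∀ᶠ N : ℕ in atTop, (N : ℝ) ^ ε ≤ H N ∧ (H N : ℝ) ≤ (N : ℝ) ^ (1 - ε)) :
    Tendsto (fun N : ℕ => meanError s N (H N)) atTop (nhds 0) ↔ (Equidistributed H ∧ SmallOnMinorArcs H) := by
  obtain ⟨k, rfl⟩ := Nat.exists_eq_add_of_le' hs
  have hε' : 0 < min ε (1 / 2) := lt_min hε (by norm_num)
  have hH' : ∀ᶠ N : ℕ in atTop, (N : ℝ) ^ (min ε (1 / 2)) ≤ H N ∧ (H N : ℝ) ≤ (N : ℝ) ^ (1 - min ε (1 / 2)) := by
    filter_upwards [hH, eventually_ge_atTop 1] with N hN hN1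
    have hN1' : (1 : ℝ) ≤ N := by exact_mod_cast hN1
    exact ⟨(Real.rpow_le_rpow_of_exponent_le hN1' (min_le_left _ _)).trans hN.1,
      hN.2.trans (Real.rpow_le_rpow_of_exponent_le hN1' (by linarith [min_le_left ε (1 / 2)]))⟩
  rw [← major_iff, ← minor_iff]
  simp only [← meanError_eq]
  constructor
  · intro h
    exact ⟨Pool.Agent.NH16.fwd_major k _ hε' (min_le_right _ _) H hH' h,
      Pool.Agent.NH16.fwd_minor k _ hε' (min_le_right _ _) H hH' h⟩
  · rintro ⟨h1, h2⟩
    exact Pool.Agent.NH16.bwd k _ hε' (min_le_right _ _) H hH' h1 h2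

end Pool.Agent.Results.MP_e87c7d_nt.AverageIffShortIntervals
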